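import Pool.Agent.Y471.SQ3.Cluster

/-!
# Numbers of type 3 with no Poissonian four-level correlation along any subsequence

A strong form of the negative answer to Q1. The definitions (`x`, `corr`, `IsOfType`,
`PoissonianAlong`) are those of the starting file `NoPoissonSubseq` of the same problem;
`corr d N α f` is the `k`-level correlation `R_k(N, α, f)` with `k = d + 1`.
-/

set_option autoImplicit false

namespace Pool.Agent.Results.MP_ba281e_nt.FourLevelDense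

open Filter Topology Pool.Agent.Y471.SQ3
open Pool.Agent.Results.MP_ba281e_nt.NoPoissonSubseq (x corr IsOfType PoissonianAlong bump
  bump_continuous bump_nonneg bump_compact)

/-- a small box on which `f ≥ f(0)/2` -/
lemma box (d : ℕ) (f : (Fin d → ℝ) → ℝ) (hf : Continuous f) (h0 : 0 < f 0) :
    ∃ δ : ℝ, 0 < δ ∧ δ ≤ 1 ∧ ∀ y : Fin d → ℝ, (∀ i, |y i| ≤ δ) → f 0 / 2 ≤ f y := by
  have h1 : ∀ᶠ y in 𝓝 (0 : Fin d → ℝ), f 0 / 2 < f y :=
    hf.continuousAt.eventually (lt_mem_nhds (by linarith))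
  obtain ⟨ε, hε, h2⟩ := Metric.eventually_nhds_iff.mp h1
  refine ⟨min (ε / 2) 1, by positivity, min_le_right _ _, ?_⟩
  intro y hy
  refine (h2 ?_).le
  rw [dist_zero_right]
  have h3 : ‖y‖ ≤ min (ε / 2) 1 :=
    (pi_norm_le_iff_of_nonneg (by positivity)).mpr (fun i => by simpa using hy i)
  have h4 := min_le_left (ε / 2) 1
  linarith

lemma growth (D : Dat) (d : ℕ) (f : (Fin d → ℝ) → ℝ) (hf : Continuous f)
    (hc : HasCompactSupport f) (hf0 : ∀ y, 0 ≤ f y) (h0 : 0 < f 0) :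
    ∃ c : ℝ, 0 < c ∧ ∀ᶠ N : ℕ in atTop,
      c * (N : ℝ) ^ (((d : ℝ) + 1) / 4 - 1) ≤ corr d N D.alpha f := by
  obtain ⟨δ, hδ0, hδ1, hδ⟩ := box d f hf h0
  have hw0 : (1 : ℝ) ≤ D.w0 := by exact_mod_cast D.hw0
  have hw1 : (1 : ℝ) ≤ D.w1 := by exact_mod_cast D.hw1
  set B : ℝ := ((D.w0 : ℝ) + D.w1) * ((d : ℝ) + 1) with hB
  have hB0 : 0 < B := by positivity
  set κ : ℝ := δ / B with hκ
  have hκ0 : 0 < κ := by positivity
  refine ⟨f 0 / 2 * (κ / 2) ^ (d + 1), by positivity,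
    asym D d f hf0 hc δ (f 0 / 2) κ hδ0 hδ1 (by positivity) hδ hκ0 ?_⟩
  have h1 : ((D.w0 : ℝ) + D.w1) * (((d : ℝ) + 1) * κ) = δ := by
    rw [hκ, ← mul_assoc, ← hB]
    field_simp
  rw [h1]
  exact pow_le_pow_of_le_one hδ0.le hδ1 (by norm_num)

lemma diverges (D : Dat) (d : ℕ) (hd : 4 ≤ d) (f : (Fin d → ℝ) → ℝ) (hf : Continuous f)
    (hc : HasCompactSupport f) (hf0 : ∀ y, 0 ≤ f y) (h0 : 0 < f 0) :
    Tendsto (fun N : ℕ => corr d N D.alpha f) atTop atTop := by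
  obtain ⟨c, hc0, h⟩ := growth D d f hf hc hf0 h0
  have hdR : (4 : ℝ) ≤ d := by exact_mod_cast hd
  refine tendsto_atTop_mono' atTop h ?_
  exact ((tendsto_rpow_atTop (by linarith)).comp tendsto_natCast_atTop_atTop).const_mul_atTop hc0

lemma bump_int : 0 < ∫ y, bump 3 y := by
  refine (bump_continuous 3).integral_pos_of_hasCompactSupport_nonneg_nonzero (bump_compact 3)
    (fun y => bump_nonneg 3 y) (x := 0) ?_
  unfold bump
  simp

/-- the four-level correlation beats every multiple of the Poisson value -/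
lemma four (D : Dat) (K : ℝ) :
    ∃ f : (Fin 3 → ℝ) → ℝ, Continuous f ∧ HasCompactSupport f ∧ (∀ y, 0 ≤ f y) ∧
      0 < ∫ y, f y ∧ ∀ᶠ N : ℕ in atTop, K * ∫ y, f y ≤ corr 3 N D.alpha f := by
  have hw0 : (1 : ℝ) ≤ D.w0 := by exact_mod_cast D.hw0
  have hw1 : (1 : ℝ) ≤ D.w1 := by exact_mod_cast D.hw1
  set w : ℝ := (D.w0 : ℝ) + D.w1 with hw
  have hwpos : 0 < w := by positivity
  have hwne : w ≠ 0 := hwpos.ne'
  set I : ℝ := ∫ y, bump 3 y with hI
  have hI0 : 0 < I := bump_int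
  set A : ℝ := 1 / (8 * w) ^ 4 with hA
  have hA0 : 0 < A := by positivity
  -- choice of `ε`
  set ε : ℝ := min 1 (A / ((|K| + 1) * I)) with hε
  have hε0 : 0 < ε := by positivity
  have hε1 : ε ≤ 1 := min_le_left _ _
  have hε2 : ε * ((|K| + 1) * I) ≤ A := by
    have h1 : ε ≤ A / ((|K| + 1) * I) := min_le_right _ _
    rwa [le_div_iff₀ (by positivity)] at h1
  set δ : ℝ := ε ^ 2 with hδ
  have hδ0 : 0 < δ := by positivity
  have hδ1 : δ ≤ 1 := pow_le_one₀ hε0.le hε1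
  set f : (Fin 3 → ℝ) → ℝ := fun y => bump 3 (δ⁻¹ • y) with hf
  have hfc : Continuous f := (bump_continuous 3).comp (continuous_const_smul _)
  have hfs : HasCompactSupport f :=
    (bump_compact 3).comp_homeomorph (Homeomorph.smulOfNeZero δ⁻¹ (inv_ne_zero hδ0.ne'))
  have hint : ∫ y, f y = δ ^ 3 * I := by
    have h1 := MeasureTheory.Measure.integral_comp_smul
      (MeasureTheory.volume : MeasureTheory.Measure (Fin 3 → ℝ)) (bump 3) δ⁻¹
    rw [hf, h1, hI]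
    simp only [Module.finrank_fintype_fun_eq_card, Fintype.card_fin, smul_eq_mul, inv_pow, inv_inv]
    rw [abs_of_pos (by positivity)]
  have hbox : ∀ y : Fin 3 → ℝ, (∀ i, |y i| ≤ δ) → 1 ≤ f y := by
    intro y hy
    have h1 : ‖y‖ ≤ δ := (pi_norm_le_iff_of_nonneg hδ0.le).mpr (fun i => by simpa using hy i)
    have h2 : ‖δ⁻¹ • y‖ ≤ 1 := by
      rw [norm_smul, norm_inv, Real.norm_eq_abs, abs_of_pos hδ0]
      rw [inv_mul_le_iff₀ hδ0]
      linarith
    show 1 ≤ max 0 (2 - ‖δ⁻¹ • y‖)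
    exact le_trans (by linarith) (le_max_right _ _)
  set κ : ℝ := ε / (4 * w) with hκ
  have hκ0 : 0 < κ := by positivity
  have hκ4 : (w * (((3 : ℕ) : ℝ) + 1) * κ) = ε := by
    rw [hκ]
    push_cast
    have h1 : w * (3 + 1) * (ε / (4 * w)) = ε * (w / w) := by ring_nf
    rw [h1, div_self hwne, mul_one]
  have hasym := asym D 3 f (fun y => bump_nonneg 3 _) hfs δ 1 κ hδ0 hδ1 zero_le_one hbox hκ0 (by
    rw [← hw, ← mul_assoc, hκ4, hδ]
    exact le_of_eq (by ring))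
  refine ⟨f, hfc, hfs, fun y => bump_nonneg 3 _, by rw [hint]; positivity, ?_⟩
  filter_upwards [hasym] with N hN
  refine le_trans ?_ hN
  have h1 : (((3 : ℕ) : ℝ) + 1) / 4 - 1 = 0 := by norm_num
  rw [h1, Real.rpow_zero, mul_one, one_mul, hint]
  have h2 : (κ / 2) ^ (3 + 1) = ε ^ 4 * A := by
    rw [hκ, hA, div_div, div_pow, show 4 * w * 2 = 8 * w by ring]
    ring
  rw [h2]
  have h3 : K ≤ |K| + 1 := by linarith [le_abs_self K]
  have h4 : K * (δ ^ 3 * I) ≤ (|K| + 1) * (δ ^ 3 * I) :=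
    mul_le_mul_of_nonneg_right h3 (by positivity)
  have h5 : (|K| + 1) * (δ ^ 3 * I) = ε ^ 5 * (ε * ((|K| + 1) * I)) := by
    rw [hδ]; ring
  have h6 : ε ^ 5 * (ε * ((|K| + 1) * I)) ≤ ε ^ 4 * A := by
    have h7 : ε ^ 5 ≤ ε ^ 4 := pow_le_pow_of_le_one hε0.le hε1 (by norm_num)
    exact mul_le_mul h7 hε2 (by positivity) (by positivity)
  linarith

/-- no subsequence, every level from four on -/
lemma noSub (D : Dat) (N : ℕ → ℕ) (hN : Tendsto N atTop atTop) (d : ℕ) (hd : 3 ≤ d) :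
    ∃ f : (Fin d → ℝ) → ℝ, Continuous f ∧ HasCompactSupport f ∧
      ¬ Tendsto (fun j => corr d (N j) D.alpha f) atTop (𝓝 (∫ y, f y)) := by
  rcases Nat.lt_or_ge d 4 with h | h
  · obtain rfl : d = 3 := by omega
    obtain ⟨f, h1, h2, _, h4, h5⟩ := four D 2
    refine ⟨f, h1, h2, ?_⟩
    intro ht
    have h6 : ∀ᶠ j in atTop, 2 * ∫ y, f y ≤ corr 3 (N j) D.alpha f := hN.eventually h5
    have h7 := ge_of_tendsto ht h6
    linarith
  · refine ⟨bump d, bump_continuous d, bump_compact d, ?_⟩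
    have h0 : 0 < bump d 0 := by unfold bump; simp
    exact not_tendsto_nhds_of_tendsto_atTop
      ((diverges D d h _ (bump_continuous d) (bump_compact d) (bump_nonneg d) h0).comp hN) _

/-! ### Many numbers in every interval -/

/-- the choices -/
def mch (e : ℕ → Bool) (j : ℕ) : ℤ := if e j then 1 else 2

lemma start (a b : ℝ) (hab : a < b) :
    ∃ w0 w1 p0 p1 : ℤ, 1 ≤ w0 ∧ 1 ≤ w1 ∧ w0 ≤ w1 ∧ p1 * w0 - p0 * w1 = 1 ∧
      a < (p0 : ℝ) / w0 ∧ (p1 : ℝ) / w1 < b := by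
  obtain ⟨r, hr1, hr2⟩ := exists_rat_btwn hab
  have hcop : IsCoprime (r.num) (r.den : ℤ) := by
    have := r.reduced
    exact Int.isCoprime_iff_gcd_eq_one.mpr (by simpa [Int.gcd, Int.natAbs_natCast] using this)
  obtain ⟨u, v, huv⟩ := hcop
  have hd : (1 : ℤ) ≤ r.den := by exact_mod_cast r.pos
  obtain ⟨K, hK⟩ := exists_nat_gt (1 / (b - r))
  set t : ℤ := |u| + 1 + K with ht
  have hbr : 0 < b - r := by linarith
  have hu := le_abs_self u
  have hu0 := abs_nonneg u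
  have hw1 : (r.den : ℤ) + K ≤ -u + t * r.den := by
    have h1 : (|u| + K) * 1 ≤ (|u| + K) * (r.den : ℤ) :=
      mul_le_mul_of_nonneg_left hd (by positivity)
    have h2 : t * (r.den : ℤ) = (|u| + K) * r.den + r.den := by rw [ht]; ring
    linarith
  refine ⟨r.den, -u + t * r.den, r.num, v + t * r.num, hd, by omega, by omega, ?_, ?_, ?_⟩
  · linear_combination huv
  · have : ((r.num : ℤ) : ℝ) / ((r.den : ℤ) : ℝ) = (r : ℝ) := by
      exact_mod_cast Rat.num_div_den r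
    rw [this]
    exact hr1
  · have hden : (0 : ℝ) < r.den := by exact_mod_cast r.pos
    have hw1R : ((K : ℝ)) ≤ ((-u + t * r.den : ℤ) : ℝ) := by
      have : (K : ℤ) ≤ -u + t * r.den := by omega
      exact_mod_cast this
    have hKpos : (0 : ℝ) < K := lt_trans (by positivity) hK
    have hWpos : (0 : ℝ) < ((-u + t * r.den : ℤ) : ℝ) := lt_of_lt_of_le hKpos hw1R
    have hrr : (r : ℝ) = (r.num : ℝ) / (r.den : ℝ) := by
      exact_mod_cast (Rat.num_div_den r).symm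
    have hdiff : ((v + t * r.num : ℤ) : ℝ) / ((-u + t * r.den : ℤ) : ℝ) - (r : ℝ)
        = 1 / (r.den * ((-u + t * r.den : ℤ) : ℝ)) := by
      rw [hrr, div_sub_div _ _ hWpos.ne' hden.ne']
      have huvR : (u : ℝ) * r.num + v * r.den = 1 := by exact_mod_cast huv
      have : ((v + t * r.num : ℤ) : ℝ) * r.den - ((-u + t * r.den : ℤ) : ℝ) * r.num = 1 := by
        push_cast
        linear_combination huvR
      rw [this, mul_comm]
    have hden1 : (1 : ℝ) ≤ r.den := by exact_mod_cast r.pos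
    have h3 : 1 / (r.den * ((-u + t * r.den : ℤ) : ℝ)) < b - r := by
      rw [div_lt_iff₀ (by positivity)]
      rw [div_lt_iff₀ hbr] at hK
      have h4 : (K : ℝ) ≤ r.den * ((-u + t * r.den : ℤ) : ℝ) := by nlinarith
      nlinarith
    linarith

/-- **Theorem.** Strong negative answer to Q1. -/
theorem result :
    (∀ a b : ℝ, a < b → ∃ S : Set ℝ, S ⊆ Set.Ioo a b ∧ Cardinal.mk S = Cardinal.continuum ∧
      ∀ α ∈ S, Irrational α ∧ IsOfType 3 α ∧
        (∀ (d : ℕ) (f : (Fin d → ℝ) → ℝ), Continuous f → HasCompactSupport f →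
          (∀ y, 0 ≤ f y) → 0 < f 0 →
          ∃ c : ℝ, 0 < c ∧ ∀ᶠ N : ℕ in atTop,
            c * (N : ℝ) ^ (((d : ℝ) + 1) / 4 - 1) ≤ corr d N α f) ∧
        (∀ (d : ℕ) (f : (Fin d → ℝ) → ℝ), 4 ≤ d → Continuous f → HasCompactSupport f →
          (∀ y, 0 ≤ f y) → 0 < f 0 → Tendsto (fun N : ℕ => corr d N α f) atTop atTop) ∧
        (∀ K : ℝ, ∃ f : (Fin 3 → ℝ) → ℝ, Continuous f ∧ HasCompactSupport f ∧
          (∀ y, 0 ≤ f y) ∧ 0 < ∫ y, f y ∧
          ∀ᶠ N : ℕ in atTop, K * ∫ y, f y ≤ corr 3 N α f) ∧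
        (∀ N : ℕ → ℕ, Tendsto N atTop atTop → ∀ d : ℕ, 3 ≤ d →
          ∃ f : (Fin d → ℝ) → ℝ, Continuous f ∧ HasCompactSupport f ∧
            ¬ Tendsto (fun j => corr d (N j) α f) atTop (𝓝 (∫ y, f y))) ∧
        ∀ N : ℕ → ℕ, Tendsto N atTop atTop → ¬ PoissonianAlong α N) ∧
    ∀ κ : ℝ, 2 < κ → ∃ α : ℝ, Irrational α ∧ IsOfType κ α ∧
      (∃ d : ℕ, 1 ≤ d ∧ ∃ f : (Fin d → ℝ) → ℝ, Continuous f ∧ HasCompactSupport f ∧
        Tendsto (fun N : ℕ => corr d N α f) atTop atTop) ∧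
      ∀ N : ℕ → ℕ, Tendsto N atTop atTop → ¬ PoissonianAlong α N := by
  refine ⟨?_, Pool.Agent.Results.MP_ba281e_nt.NoPoissonSubseq.result⟩
  intro a b hab
  obtain ⟨w0, w1, p0, p1, hw0, hw1, hle, hdet, ha, hb⟩ := start a b hab
  have hm : ∀ (e : ℕ → Bool) (j : ℕ), 1 ≤ mch e j ∧ mch e j ≤ 2 := by
    intro e j
    unfold mch
    split_ifs <;> norm_num
  let DD : (ℕ → Bool) → Dat := fun e => ⟨w0, w1, p0, p1, mch e, hw0, hw1, hle, hdet, hm e⟩
  have hinj : Function.Injective (fun e => (DD e).alpha) := by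
    intro e e' h
    have h1 : mch e = mch e' := alpha_ne (DD e) (DD e') rfl rfl rfl rfl h
    funext j
    have h2 := congrFun h1 j
    unfold mch at h2
    revert h2
    cases e j <;> cases e' j <;> simp
  refine ⟨Set.range (fun e => (DD e).alpha), ?_, ?_, ?_⟩
  · rintro _ ⟨e, rfl⟩
    have h := (DD e).alpha_between
    exact ⟨ha.trans h.1, h.2.trans hb⟩
  · rw [Cardinal.mk_range_eq _ hinj]
    simp
  · rintro _ ⟨e, rfl⟩
    refine ⟨(DD e).irr, ?_, ?_, ?_, ?_, ?_, ?_⟩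
    · obtain ⟨C, hC, h⟩ := (DD e).type3
      exact ⟨C, hC, fun a q hq _ => h a q hq⟩
    · exact fun d f h1 h2 h3 h4 => growth (DD e) d f h1 h2 h3 h4
    · exact fun d f hd h1 h2 h3 h4 => diverges (DD e) d hd f h1 h2 h3 h4
    · exact four (DD e)
    · exact fun N hN d hd => noSub (DD e) N hN d hd
    · intro N hN hP
      obtain ⟨f, h1, h2, h3⟩ := noSub (DD e) N hN 3 le_rfl
      exact h3 (hP 3 (by norm_num) f h1 h2)

end Pool.Agent.Results.MP_ba281e_nt.FourLevelDense
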